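import Pool.Agent.Helper3.WT.St.Stubs

/-!
# WT-B1 and WT-B3: representations of stacked sets
-/

set_option autoImplicit false
set_option linter.unusedVariables false

namespace Pool.Agent.Helper30.WT

open Finset Filter
open Pool.Agent.Helper48.ET
open Pool.Agent.Helper3.WT

lemma rpset_finite (X Y : Set ℕ) (n : ℕ) :
    {q : ℕ × ℕ | q.1 ∈ X ∧ q.2 ∈ Y ∧ q.1 + q.2 = n}.Finite := by
  refine Set.Finite.subset ((range (n + 1) ×ˢ range (n + 1) : Finset (ℕ × ℕ)).finite_toSet) ?_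
  rintro ⟨a, b⟩ ⟨_, _, h⟩
  simp only [coe_product, coe_range, Set.mem_prod, Set.mem_Iio]
  simp only at h
  omega

/-- WT-B1 -/
theorem rp_stack {X Y U V : Set ℕ} {W : ℕ} (hW : ∀ x ∈ X, ∀ y ∈ Y, x + y < W) (n : ℕ) :
    rp {m | ∃ x ∈ X, ∃ u ∈ U, m = x + W * u} {m | ∃ y ∈ Y, ∃ v ∈ V, m = y + W * v} n ≤
      rp X Y (n % W) * rp U V (n / W) := by
  unfold rp
  rw [← Set.ncard_prod]
  have hfin : ({q : ℕ × ℕ | q.1 ∈ X ∧ q.2 ∈ Y ∧ q.1 + q.2 = n % W} ×ˢ
      {q : ℕ × ℕ | q.1 ∈ U ∧ q.2 ∈ V ∧ q.1 + q.2 = n / W}).Finite :=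
    (rpset_finite X Y _).prod (rpset_finite U V _)
  refine le_trans ?_ (Set.ncard_image_le
    (f := fun z : (ℕ × ℕ) × (ℕ × ℕ) => (z.1.1 + W * z.2.1, z.1.2 + W * z.2.2)) hfin)
  refine Set.ncard_le_ncard ?_ (hfin.image _)
  rintro ⟨a, b⟩ ⟨⟨x, hx, u, hu, ha⟩, ⟨y, hy, v, hv, hb⟩, hab⟩
  simp only at ha hb hab
  have h1 := hW x hx y hy
  have hWpos : 0 < W := by omega
  have h2 : n = (x + y) + W * (u + v) := by
    rw [← hab, ha, hb]
    ring
  have h3 : n % W = x + y := by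
    rw [h2, Nat.add_mul_mod_self_left, Nat.mod_eq_of_lt h1]
  have h4 : n / W = u + v := by
    rw [h2, Nat.add_mul_div_left _ _ hWpos, Nat.div_eq_of_lt h1, zero_add]
  refine ⟨((x, y), (u, v)), ?_, ?_⟩
  · refine ⟨⟨hx, hy, h3.symm⟩, ⟨hu, hv, h4.symm⟩⟩
  · simp only [ha, hb]

lemma rp_zero_le (X : Set ℕ) (n : ℕ) : rp X {0} n ≤ 1 := by
  unfold rp
  rw [Set.ncard_le_one (rpset_finite X {0} n)]
  rintro ⟨a, b⟩ ⟨_, hb, hab⟩ ⟨a', b'⟩ ⟨_, hb', hab'⟩
  simp only [Set.mem_singleton_iff] at hb hb' hab hab'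
  ext
  · simp only
    omega
  · simp only
    omega

section sys

variable (σ : Sys)

lemma G_pos (k : ℕ) : 1 ≤ σ.G k := (σ.comp k).G_pos

lemma prod_mono {k : ℕ} : ∏ j ∈ range k, σ.G j ≤ ∏ j ∈ range (k + 1), σ.G j := by
  rw [prod_range_succ]
  exact Nat.le_mul_of_pos_right _ (G_pos σ k)

/-- the elements of `X` as a stack with the singleton `{0}` -/
lemma stack_zero (X : Set ℕ) (W : ℕ) : X = {m | ∃ y ∈ X, ∃ v ∈ ({0} : Set ℕ), m = y + W * v} := by
  ext m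
  constructor
  · intro h
    exact ⟨m, h, 0, rfl, by simp⟩
  · rintro ⟨y, hy, v, hv, rfl⟩
    rw [Set.mem_singleton_iff] at hv
    subst hv
    simpa using hy

/-- WT-B3 (from `rp_stack`) -/
theorem rp_low (k n : ℕ) : rp (σ.Low k) (σ.Low k) n ≤ ∏ j ∈ range k, σ.G j := by
  induction k generalizing n with
  | zero =>
    rw [range_zero, prod_empty]
    exact rp_zero_le ({0} : Set ℕ) n
  | succ k ih =>
    have hW : ∀ x ∈ σ.Low k, ∀ y ∈ σ.Low k, x + y < σ.W k := by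
      intro x hx y hy
      have h1 := St.low_lt σ k x hx
      have h2 := St.low_lt σ k y hy
      omega
    rw [prod_range_succ]
    exact (rp_stack (U := σ.T k) (V := σ.T k) hW n).trans
      (Nat.mul_le_mul (ih _) ((σ.comp k).TT _))

/-- WT-B3: a full sum against a shorter element; for `k' < k` write
`Part k' N' = {b + W k * 0 | b ∈ Part k' N'}` -/
theorem rp_low_part {k k' N' : ℕ} (hk : k' < k) (h2 : 2 ≤ N') (hN : N' ≤ σ.M k') (n : ℕ) :
    rp (σ.Low k) (σ.Part k' N') n ≤ ∏ j ∈ range k, σ.G j := by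
  induction k generalizing n with
  | zero => omega
  | succ k ih =>
    rcases Nat.lt_succ_iff_lt_or_eq.mp hk with h | h
    · have hW : ∀ x ∈ σ.Low k, ∀ y ∈ σ.Part k' N', x + y < σ.W k := by
        intro x hx y hy
        have h1 := St.low_lt σ k x hx
        have h2 := St.part_lt_W σ h2 hN h y hy
        omega
      rw [prod_range_succ]
      have e : rp (σ.Low (k + 1)) (σ.Part k' N') n =
          rp {m | ∃ x ∈ σ.Low k, ∃ u ∈ σ.T k, m = x + σ.W k * u}
            {m | ∃ y ∈ σ.Part k' N', ∃ v ∈ ({0} : Set ℕ), m = y + σ.W k * v} n := by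
        rw [← stack_zero]
        rfl
      rw [e]
      exact (rp_stack hW n).trans
        (Nat.mul_le_mul (ih h _) ((rp_zero_le _ _).trans (G_pos σ k)))
    · subst h
      have hW : ∀ x ∈ σ.Low k', ∀ y ∈ σ.Low k', x + y < σ.W k' := by
        intro x hx y hy
        have h1 := St.low_lt σ k' x hx
        have h2 := St.low_lt σ k' y hy
        omega
      rw [prod_range_succ]
      exact (rp_stack (U := σ.T k') (V := σ.S k' N') hW n).trans
        (Nat.mul_le_mul (rp_low σ k' _) ((σ.comp k').TS N' h2 hN _))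

/-- WT-B3 -/
theorem rp_part_part {k k' N N' : ℕ} (hkN : k' < k ∨ (k' = k ∧ N' ≤ N)) (h2 : 2 ≤ N)
    (hN : N ≤ σ.M k) (h2' : 2 ≤ N') (hN' : N' ≤ σ.M k') (n : ℕ) :
    rp (σ.Part k N) (σ.Part k' N') n ≤ ∏ j ∈ range (k + 1), σ.G j := by
  rw [prod_range_succ]
  rcases hkN with h | ⟨rfl, h⟩
  · have hW : ∀ x ∈ σ.Low k, ∀ y ∈ σ.Part k' N', x + y < σ.W k := by
      intro x hx y hy
      have h1 := St.low_lt σ k x hx
      have h2 := St.part_lt_W σ h2' hN' h y hy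
      omega
    have e : rp (σ.Part k N) (σ.Part k' N') n =
        rp {m | ∃ x ∈ σ.Low k, ∃ u ∈ σ.S k N, m = x + σ.W k * u}
          {m | ∃ y ∈ σ.Part k' N', ∃ v ∈ ({0} : Set ℕ), m = y + σ.W k * v} n := by
      rw [← stack_zero]
      rfl
    rw [e]
    exact (rp_stack hW n).trans
      (Nat.mul_le_mul (rp_low_part σ h h2' hN' _) ((rp_zero_le _ _).trans (G_pos σ k)))
  · have hW : ∀ x ∈ σ.Low k', ∀ y ∈ σ.Low k', x + y < σ.W k' := by
      intro x hx y hy
      have h1 := St.low_lt σ k' x hx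
      have h2 := St.low_lt σ k' y hy
      omega
    exact (rp_stack (U := σ.S k' N) (V := σ.S k' N') hW n).trans
      (Nat.mul_le_mul (rp_low σ k' _) ((σ.comp k').SS N N' h2' h hN _))

end sys

end Pool.Agent.Helper30.WT
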